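import Mathlib
import Pool.Agent.V11307.Lin.Final2a

set_option autoImplicit false

namespace Pool.Agent.Results.MP_2a941c_nt.Full

open Finset Pool.Agent.V11307.Lin

/-- the binomial polynomial `binom(x,k) = x(x-1)⋯(x-k+1)/k!` -/
def bin (x : ℚ) (k : ℕ) : ℚ := (∏ i ∈ range k, (x - (i:ℚ))) / (k.factorial : ℚ)

/-- `d_n(x) = ∑_{k ≤ n} 2^k binom(n,k) binom(x,k)` -/
def d (n : ℕ) (x : ℚ) : ℚ := ∑ k ∈ range (n+1), 2^k * (n.choose k : ℚ) * bin x k

/-- `s_n(x) = ∑_{k ≤ n} binom(n,k) binom(x,k) binom(x+k,k)` -/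
def s (n : ℕ) (x : ℚ) : ℚ := ∑ k ∈ range (n+1), (n.choose k : ℚ) * (bin x k * bin (x + (k:ℚ)) k)

lemma bin_nat (x k : ℕ) : bin (x:ℚ) k = (x.choose k : ℚ) := by
  induction k with
  | zero => simp [bin]
  | succ k ih =>
    have h := succ_choose_eq x k
    have h2 : (((k:ℤ)+1) * (x.choose (k+1) : ℤ) : ℚ) = (((x:ℤ) - k) * (x.choose k : ℤ) : ℚ) := by exact_mod_cast h
    push_cast at h2
    have hk : ((k:ℚ)+1) ≠ 0 := by positivity
    have hf : ((k.factorial : ℕ) : ℚ) ≠ 0 := by exact_mod_cast k.factorial_ne_zero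
    have e : bin (x:ℚ) (k+1) = bin (x:ℚ) k * ((x:ℚ) - k) / ((k:ℚ)+1) := by
      unfold bin
      rw [prod_range_succ, Nat.factorial_succ]
      push_cast
      field_simp
    rw [e, ih]
    field_simp
    linear_combination -h2

lemma bin_neg (x : ℚ) (k : ℕ) : bin (-1 - x) k = (-1)^k * bin (x + k) k := by
  unfold bin
  have h : ∏ i ∈ range k, (-1 - x - (i:ℚ)) = (-1)^k * ∏ i ∈ range k, (x + k - (i:ℚ)) := by
    rw [← prod_range_reflect (fun i => x + (k:ℚ) - (i:ℚ)) k]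
    have h1 : ∀ i ∈ range k, (-1 - x - (i:ℚ)) = (-1) * (x + (k:ℚ) - ((k-1-i:ℕ):ℚ)) := by
      intro i hi
      rw [mem_range] at hi
      have : ((k-1-i:ℕ):ℚ) = (k:ℚ) - 1 - i := by
        rw [Nat.cast_sub (by omega), Nat.cast_sub (by omega)]; push_cast; ring
      rw [this]; ring
    rw [prod_congr rfl h1, prod_mul_distrib, prod_const, card_range]
  rw [h]; ring

lemma d_nat (n x : ℕ) : d n (x:ℚ) = (dd n x : ℚ) := by
  unfold d dd
  push_cast
  refine sum_congr rfl (fun k _ => ?_)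
  rw [bin_nat]; ring

lemma s_nat (n x : ℕ) : s n (x:ℚ) = (ss n x : ℚ) := by
  unfold s ss b
  push_cast
  refine sum_congr rfl (fun k _ => ?_)
  rw [bin_nat]
  have : (x:ℚ) + (k:ℚ) = ((x+k:ℕ):ℚ) := by push_cast; ring
  rw [this, bin_nat]

lemma d_neg (n x : ℕ) : d n (-1 - (x:ℚ)) = (-1)^n * (dd n x : ℚ) := by
  have h := gg_eq n x
  have h2 : (gg n x : ℚ) = (-1)^n * (dd n x : ℚ) := by exact_mod_cast h
  rw [← h2]
  unfold d gg
  push_cast
  refine sum_congr rfl (fun k _ => ?_)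
  rw [bin_neg]
  have : (x:ℚ) + (k:ℚ) = ((x+k:ℕ):ℚ) := by push_cast; ring
  rw [this, bin_nat, neg_pow (2:ℚ) k]
  ring

lemma s_neg (n x : ℕ) : s n (-1 - (x:ℚ)) = (ss n x : ℚ) := by
  rw [← s_nat]
  unfold s
  refine sum_congr rfl (fun k _ => ?_)
  have h1 := bin_neg (x:ℚ) k
  have h2 := bin_neg (-1 - (x:ℚ) - k + k) k
  have h3 : bin (-1 - (x:ℚ) + k) k = (-1)^k * bin (x:ℚ) k := by
    have := bin_neg ((x:ℚ) - k) k
    rw [show -1 - ((x:ℚ) - k) = -1 - (x:ℚ) + k by ring, show (x:ℚ) - k + k = (x:ℚ) by ring] at this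
    exact this
  rw [h1, h3]
  have h4 : ((-1:ℚ)^k * (-1)^k) = 1 := by rw [← mul_pow]; norm_num
  linear_combination ((n.choose k : ℚ) * (bin ((x:ℚ)+k) k * bin (x:ℚ) k)) * h4

/-- **Q1 of MP_2a941c (proved)**: for all positive integers `m, n`, both
`A_{m,n}(x) = (1/n) ∑_{k<n} (2k+1) d_k(x)^m s_k(x)^m` and
`B_{m,n}(x) = (1/n) ∑_{k<n} (-1)^k (2k+1) d_k(x)^m s_k(x)^m` take integer values at every integer `x = a`. -/
theorem result : ∀ m n : ℕ, 1 ≤ m → 1 ≤ n → ∀ a : ℤ,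
    (∃ z : ℤ, (1/(n:ℚ)) * ∑ k ∈ range n, (2*(k:ℚ)+1) * (d k (a:ℚ)^m * s k (a:ℚ)^m) = (z:ℚ)) ∧
    (∃ z : ℤ, (1/(n:ℚ)) * ∑ k ∈ range n, (-1)^k * (2*(k:ℚ)+1) * (d k (a:ℚ)^m * s k (a:ℚ)^m) = (z:ℚ)) := by
  intro m n _ hn a
  have hn0 : (n:ℚ) ≠ 0 := by
    have : n ≠ 0 := by omega
    exact_mod_cast this
  -- reduction to divisibility
  have key : ∀ g : ℕ → ℤ, (n:ℤ) ∣ ∑ k ∈ range n, g k →
      ∃ z : ℤ, (1/(n:ℚ)) * ∑ k ∈ range n, (g k : ℚ) = (z:ℚ) := by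
    intro g hg
    obtain ⟨z, hz⟩ := hg
    refine ⟨z, ?_⟩
    have h2 : ∑ k ∈ range n, (g k : ℚ) = (n:ℚ) * z := by exact_mod_cast hz
    rw [h2]; field_simp
  -- the two divisibilities at a natural number
  have hA : ∀ x : ℕ, (n:ℤ) ∣ ∑ k ∈ range n, (2*(k:ℤ)+1) * (dd k x * ss k x)^m :=
    fun x => ((InR.ds x).pow m).sum_plain n
  have hB : ∀ x : ℕ, (n:ℤ) ∣ ∑ k ∈ range n, (-1:ℤ)^k * (2*(k:ℤ)+1) * (dd k x * ss k x)^m :=
    fun x => ((InR.ds x).pow m).sum_alt n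
  rcases le_or_gt 0 a with ha | ha
  · obtain ⟨x, rfl⟩ := Int.eq_ofNat_of_zero_le ha
    constructor
    · obtain ⟨z, hz⟩ := key _ (hA x)
      refine ⟨z, ?_⟩
      rw [← hz]
      congr 1
      refine sum_congr rfl (fun k _ => ?_)
      push_cast
      rw [d_nat, s_nat]; ring
    · obtain ⟨z, hz⟩ := key _ (hB x)
      refine ⟨z, ?_⟩
      rw [← hz]
      congr 1
      refine sum_congr rfl (fun k _ => ?_)
      push_cast
      rw [d_nat, s_nat]; ring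
  · obtain ⟨x, hx⟩ : ∃ x : ℕ, a = -1 - (x:ℤ) := ⟨(-1-a).toNat, by omega⟩
    have hxq : (a:ℚ) = -1 - (x:ℚ) := by rw [hx]; push_cast; ring
    rcases Nat.even_or_odd m with hm | hm
    · have hs : ∀ k : ℕ, ((-1:ℚ)^k)^m = 1 := by
        intro k; rw [← pow_mul]; exact Even.neg_one_pow (hm.mul_left k)
      constructor
      · obtain ⟨z, hz⟩ := key _ (hA x)
        refine ⟨z, ?_⟩
        rw [← hz]
        congr 1
        refine sum_congr rfl (fun k _ => ?_)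
        push_cast
        rw [hxq, d_neg, s_neg, mul_pow, hs, mul_pow]; ring
      · obtain ⟨z, hz⟩ := key _ (hB x)
        refine ⟨z, ?_⟩
        rw [← hz]
        congr 1
        refine sum_congr rfl (fun k _ => ?_)
        push_cast
        rw [hxq, d_neg, s_neg, mul_pow, hs, mul_pow]; ring
    · have hs : ∀ k : ℕ, ((-1:ℚ)^k)^m = (-1)^k := by
        intro k
        rw [← pow_mul, mul_comm, pow_mul, hm.neg_one_pow]
      have hs2 : ∀ k : ℕ, (-1:ℚ)^k * (-1)^k = 1 := by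
        intro k; rw [← mul_pow]; norm_num
      constructor
      · obtain ⟨z, hz⟩ := key _ (hB x)
        refine ⟨z, ?_⟩
        rw [← hz]
        congr 1
        refine sum_congr rfl (fun k _ => ?_)
        push_cast
        rw [hxq, d_neg, s_neg, mul_pow, hs, mul_pow]; ring
      · obtain ⟨z, hz⟩ := key _ (hA x)
        refine ⟨z, ?_⟩
        rw [← hz]
        congr 1
        refine sum_congr rfl (fun k _ => ?_)
        push_cast
        rw [hxq, d_neg, s_neg, mul_pow, hs, mul_pow]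
        linear_combination ((2*(k:ℚ)+1) * (dd k x:ℚ)^m * (ss k x:ℚ)^m) * hs2 k

end Pool.Agent.Results.MP_2a941c_nt.Full
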